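import Pool.Agent.X39.Near.Gl2
import Pool.Agent.Y776.Fam.Main
import Pool.Agent.Y776.Cv.Pad
import Pool.Agent.TH813.EKPer

/-!
# Degree-bounded period relations at ALL algebraic fibres close to any point outside a set of dimension zero

Let `E_z : y² = 4 X³ - g₂(z) X - g₃(z)` be any family of elliptic curves over a curve, in local coordinates: `g₂`, `g₃` are
algebraic functions on the connected open set `U` and the `j`-invariant is not constant; `P(z)` is the matrix of the
periods `ω₁(z), ω₂(z)` and the quasi-periods `η₁(z), η₂(z)`. Consider the family of the powers `E_z^n`, or more generally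
any motives constructed from `E_z` by multilinear algebra (for instance `H^j (E_z^n)` for all `j`, `n`): their period
matrices have entries `R_k (P (z))`, where the `R_k` are polynomials with integral coefficients in the four entries of
`P(z)`. The `ℚ̄`-Zariski closure of the graph of `R ∘ P` is the closure of the set of the `(z, R (M))`, `M ∈ GL₂`: the
Legendre relation is `det P = 2 π i n`, a transcendental number.

We prove: outside ONE set of complex numbers `x` of Hausdorff dimension `0`, for all number fields `F ⊂ ℂ`, all `R`, all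
`δ`, `A` and `ω > 0` there is `T₁` such that for all `T ≥ T₁` and ALL `z ∈ F` of height at most `T` with `|z - x| ≤ T ^ (-ω)`
every relation of degree at most `δ` over `F` with integral coefficients with conjugates at most `T ^ A` between the
`R_k (P (z))` vanishes at `R (M)` for all matrices `M`: there is no relation of degree at most `δ` and height at most
`T ^ A` besides those which hold on the fibre of `B_P`. For `R_k` the coordinates: `P(z)` satisfies no nontrivial
relation at all of this kind. In particular this holds at the convergents of all irrational real numbers in `U` outside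
this set, from some point on.

Proof: the functions `ω₁, ω₂, η₁` have the property of `Pool.Agent.X39.Near` relative to the constant `2 π i n`; the
fourth entry is eliminated by the Legendre relation, and `π` is transcendental.
-/

set_option autoImplicit false

open MeasureTheory NumberField
open Pool.Agent

namespace Pool.Agent.Results.MP_290158_ag.ApproximationsOfAllNumbers

open Pool.Agent.X39.Near (Size)

/-- The Weierstrass zeta function `ζ(z) = ∑ (1/(z-l) + 1/l + z/l²)`, the sum over the lattice (the summand of `l = 0` is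
`1/z`, since `1/0 = 0` in Lean). -/
noncomputable def ζ (L : PeriodPair) (z : ℂ) : ℂ :=
  ∑' l : L.lattice, (1 / (z - l) + 1 / l + z / l ^ 2)

/-- The function `f` is algebraic over `ℂ(z)` on the set `U`. -/
def Algebraic (U : Set ℂ) (f : ℂ → ℂ) : Prop :=
  ∃ P : MvPolynomial (Fin 2) ℂ, P ≠ 0 ∧ ∀ z ∈ U, MvPolynomial.eval ![z, f z] P = 0

/-- A family of elliptic curves `ℂ / Λ_z` with algebraic invariants and nonconstant `j`. -/
structure Family (U : Set ℂ) (Λ : ℂ → PeriodPair) : Prop where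
  isOpen : IsOpen U
  isPreconnected : IsPreconnected U
  /-- the lattice depends analytically on `z` -/
  analytic₁ : AnalyticOnNhd ℂ (fun z => (Λ z).ω₁) U
  analytic₂ : AnalyticOnNhd ℂ (fun z => (Λ z).ω₂) U
  /-- the invariants are algebraic functions -/
  algebraic₂ : Algebraic U (fun z => (Λ z).g₂)
  algebraic₃ : Algebraic U (fun z => (Λ z).g₃)
  /-- `j` is not constant: `g₂³` and `g₃²` are linearly independent -/
  nonconstant : ∀ a b : ℂ, (∀ z ∈ U, a * (Λ z).g₂ ^ 3 = b * (Λ z).g₃ ^ 2) → a = 0 ∧ b = 0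

/-- The period matrix: `ω₁, ω₂, η₁, η₂`, where `η_i = 2 ζ(ω_i / 2)`. -/
noncomputable def periods (L : PeriodPair) : Fin 4 → ℂ :=
  ![L.ω₁, L.ω₂, 2 * ζ L (L.ω₁ / 2), 2 * ζ L (L.ω₂ / 2)]

/-- Every relation of total degree at most `δ` between the numbers `R_k (P)` with coefficients in the integers of `F`, all
of whose conjugates are at most `H`, holds for the `R_k (M)`, for all matrices `M` with complex entries. -/
def NoRelation {F : Type} [Field F] [NumberField F] (ι : F →+* ℂ) {m : ℕ} (R : Fin m → MvPolynomial (Fin 4) ℤ)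
    (P : Fin 4 → ℂ) (δ : ℕ) (H : ℝ) : Prop :=
  ∀ Q : MvPolynomial (Fin m) (𝓞 F), Q.totalDegree ≤ δ →
    (∀ s (φ : F →+* ℂ), ‖φ ((Q.coeff s : 𝓞 F) : F)‖ ≤ H) →
    MvPolynomial.eval₂ (ι.comp (algebraMap (𝓞 F) F)) (fun k => MvPolynomial.aeval P (R k)) Q = 0 →
    ∀ M : Fin 4 → ℂ, MvPolynomial.eval₂ (ι.comp (algebraMap (𝓞 F) F)) (fun k => MvPolynomial.aeval M (R k)) Q = 0

/-- the two definitions of `ζ` -/
theorem zeta_eq (L : PeriodPair) (z : ℂ) : H667R3.zeta L z = ζ L z := rfl

theorem legendre (L : PeriodPair) : ∃ n : ℤ, n ≠ 0 ∧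
    periods L 0 * periods L 3 - periods L 1 * periods L 2 = n * (2 * Real.pi * Complex.I) := by
  obtain ⟨n, hn, h⟩ := TH813.Ell.legendre L
  refine ⟨n, hn, ?_⟩
  rw [← h, TH813.Ell.eta_half L.ω₁_mem_lattice (TH813.Ell.half₁ L),
    TH813.Ell.eta_half L.ω₂_mem_lattice (TH813.Ell.half₂ L)]
  rfl

/-- the determinant is constant -/
theorem det_const {U : Set ℂ} {Λ : ℂ → PeriodPair} (h : Family U Λ) (hne : U.Nonempty)
    (hη : ∀ i : Fin 4, AnalyticOnNhd ℂ (fun z => periods (Λ z) i) U) : ∃ n : ℤ, n ≠ 0 ∧ ∀ z ∈ U,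
    periods (Λ z) 0 * periods (Λ z) 3 - periods (Λ z) 1 * periods (Λ z) 2 = n * (2 * Real.pi * Complex.I) := by
  obtain ⟨z₀, hz₀⟩ := hne
  obtain ⟨n, hn, hn0⟩ := legendre (Λ z₀)
  refine ⟨n, hn, fun z hz => ?_⟩
  obtain ⟨k, -, hk⟩ := legendre (Λ z)
  have hper : (2 * (Real.pi : ℂ) * Complex.I) ≠ 0 := Complex.two_pi_I_ne_zero
  let g : ℂ → ℝ := fun z => ((periods (Λ z) 0 * periods (Λ z) 3 - periods (Λ z) 1 * periods (Λ z) 2) /
    (2 * (Real.pi : ℂ) * Complex.I)).re
  have hg : ContinuousOn g U := by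
    have h1 : AnalyticOnNhd ℂ (fun z => (periods (Λ z) 0 * periods (Λ z) 3 - periods (Λ z) 1 * periods (Λ z) 2) /
        (2 * (Real.pi : ℂ) * Complex.I)) U := fun z hz =>
      (((hη 0 z hz).mul (hη 3 z hz)).sub ((hη 1 z hz).mul (hη 2 z hz))).div_const
    exact Complex.continuous_re.comp_continuousOn h1.continuousOn
  have hval : ∀ (y : ℂ) (l : ℤ), periods (Λ y) 0 * periods (Λ y) 3 - periods (Λ y) 1 * periods (Λ y) 2 =
      l * (2 * Real.pi * Complex.I) → g y = l := by
    intro y l hl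
    simp only [g, hl]
    rw [mul_div_cancel_right₀ _ hper]
    simp
  have hdisc : DiscreteTopology (Set.range ((↑) : ℤ → ℝ)) :=
    (Int.isClosedEmbedding_coe_real.isEmbedding.toHomeomorph.symm.isEmbedding).discreteTopology
  have hmaps : Set.MapsTo g U (Set.range ((↑) : ℤ → ℝ)) := by
    intro y hy
    obtain ⟨l, -, hl⟩ := legendre (Λ y)
    exact ⟨l, (hval y l hl).symm⟩
  have h2 := h.isPreconnected.constant_of_mapsTo ⟨hdisc⟩ hg hmaps hz₀ hz
  rw [hval z₀ n hn0, hval z k hk] at h2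
  rw [hk]
  have h3 : n = k := by exact_mod_cast h2
  rw [h3]

/-- **Theorem.** Let `Λ` be a family on `U`. There is a set `E` of complex numbers of Hausdorff dimension `0` such that:
(1) for all `x ∈ U` outside `E`, all number fields `F` with an embedding `ι` in `ℂ`, all polynomials `R_1, …, R_m` with
integral coefficients in the entries of a `2 × 2` matrix, all `δ`, `A` and `ω > 0` there is `T₁` such that for all
`T ≥ T₁` and all `z ∈ F`, quotients of integers with conjugates at most `T`, with `|ι z - x| ≤ T ^ (-ω)`, every relation of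
degree at most `δ` with integral coefficients in `F` with conjugates at most `T ^ A` between the `R_k (P (z))` holds for
`R (M)` for all `M`; (2) for all irrational real `x ∈ U` outside `E` and all `R`, `δ`, `A` the same holds over `ℚ` at the
convergents of `x` from some point on, `T` being the denominator. -/
theorem result (U : Set ℂ) (Λ : ℂ → PeriodPair) (hΛ : Family U Λ) :
    ∃ E : Set ℂ, dimH E = 0 ∧
      (∀ x ∈ U, x ∉ E → ∀ (F : Type) [Field F] [NumberField F] (ι : F →+* ℂ) (m : ℕ)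
        (R : Fin m → MvPolynomial (Fin 4) ℤ) (δ A : ℕ) (ω : ℝ), 0 < ω → ∃ T₁ : ℝ, ∀ T : ℝ, T₁ ≤ T → ∀ z : F,
          Size F T z → ‖ι z - x‖ ≤ T ^ (-ω) → NoRelation ι R (periods (Λ (ι z))) δ (T ^ A)) ∧
      ∀ x : ℝ, Irrational x → (x : ℂ) ∈ U → (x : ℂ) ∉ E → ∀ (m : ℕ) (R : Fin m → MvPolynomial (Fin 4) ℤ)
        (δ A : ℕ), ∃ n₀ : ℕ, ∀ n : ℕ, n₀ ≤ n →
          NoRelation (algebraMap ℚ ℂ) R (periods (Λ ((x.convergent n : ℚ) : ℂ))) δ
            (((x.convergent n).den : ℝ) ^ A) := by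
  classical
  rcases U.eq_empty_or_nonempty with rfl | hne
  · exact ⟨∅, dimH_empty, fun x hx => absurd hx (Set.notMem_empty x), fun x _ hx => absurd hx (Set.notMem_empty _)⟩
  have hF : Y776.Fam.Fm (r := 0) (s := 0) (q := 0) U Λ (fun k => k.elim0) (fun k => k.elim0)
      (fun k => k.elim0) (fun k => k.elim0) :=
    { isOpen := hΛ.isOpen, conn := hΛ.isPreconnected, an₁ := hΛ.analytic₁, an₂ := hΛ.analytic₂
      ni := hΛ.nonconstant, ag2 := hΛ.algebraic₂, ag3 := hΛ.algebraic₃, ua := fun k => k.elim0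
      un := fun k => k.elim0, uw := fun k => k.elim0, ui := fun _ _ => Subsingleton.elim _ _, la := fun k => k.elim0
      le := fun k => k.elim0, li := fun _ _ _ => Subsingleton.elim _ _
      Sa := fun k => k.elim0, Se := fun k => k.elim0, Ni := fun _ _ => Subsingleton.elim _ _ }
  have hη : ∀ i : Fin 4, AnalyticOnNhd ℂ (fun z => periods (Λ z) i) U := by
    have hL := hF.toLF
    intro i
    fin_cases i
    · exact hΛ.analytic₁
    · exact hΛ.analytic₂
    · have h1 := hL.an_zeta (p := fun z => (Λ z).ω₁ / 2) (fun z hz => (hΛ.analytic₁ z hz).div_const)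
        (fun z _ => TH813.Ell.half₁ (Λ z))
      exact fun z hz => analyticAt_const.mul (h1 z hz)
    · have h1 := hL.an_zeta (p := fun z => (Λ z).ω₂ / 2) (fun z hz => (hΛ.analytic₂ z hz).div_const)
        (fun z _ => TH813.Ell.half₂ (Λ z))
      exact fun z hz => analyticAt_const.mul (h1 z hz)
  obtain ⟨n₁, hn₁, hdet⟩ := det_const hΛ hne hη
  set c : ℂ := n₁ * (2 * Real.pi * Complex.I) with hc
  have hct : Transcendental ℚ c := by
    intro h
    have hI : IsAlgebraic ℚ Complex.I := Complex.isIntegral_rat_I.isAlgebraic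
    have h1 : IsAlgebraic ℚ ((n₁ : ℂ) * 2 * Complex.I)⁻¹ := by
      refine IsAlgebraic.inv ?_
      refine IsAlgebraic.mul (IsAlgebraic.mul (isAlgebraic_intCast n₁) ?_) hI
      exact_mod_cast isAlgebraic_intCast (R := ℚ) (A := ℂ) 2
    have hne : ((n₁ : ℂ) * 2 * Complex.I) ≠ 0 := by
      have : (n₁ : ℂ) ≠ 0 := by exact_mod_cast hn₁
      simp [this, Complex.I_ne_zero]
    have h2 : (Real.pi : ℂ) = c * ((n₁ : ℂ) * 2 * Complex.I)⁻¹ := by
      rw [eq_mul_inv_iff_mul_eq₀ hne, hc]
      ring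
    apply H340R2.LW.transcendental_pi_complex
    rw [h2]
    exact h.mul h1
  let f : Fin 3 → ℂ → ℂ := fun i => Y776.Fam.yfam (r := 0) (s := 0) (q := 0) Λ (fun k => k.elim0)
      (fun k => k.elim0) (fun k => k.elim0) (Sum.inl i)
  have hf0 : ∀ z, f 0 z = periods (Λ z) 0 := fun z => rfl
  have hf1 : ∀ z, f 1 z = periods (Λ z) 1 := fun z => rfl
  have hf2 : ∀ z, f 2 z = periods (Λ z) 2 := by
    intro z
    show H667R3.eta (Λ z) (Λ z).ω₁ = 2 * ζ (Λ z) ((Λ z).ω₁ / 2)
    rw [TH813.Ell.eta_half (Λ z).ω₁_mem_lattice (TH813.Ell.half₁ (Λ z)), zeta_eq]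
  obtain ⟨E, e1, e2, e3⟩ := Pool.Agent.X39.Near.master (q := 0) U hΛ.isOpen f
    (fun i t ht => Y776.Fam.yfam_an hF (Sum.inl i) t ht)
    (fun t ht => Y776.Cv.LocInd.comp_inj (Y776.Fam.fam_locInd hF ht) Sum.inl_injective)
    (fun k => k.elim0) 1 (by simp) (fun _ : Fin 1 => c)
  have key : ∀ (F : Type) [Field F] [NumberField F] (ι : F →+* ℂ) (m : ℕ)
      (R : Fin m → MvPolynomial (Fin 4) ℤ) (δ A : ℕ), ∃ (d : ℕ) (T₂ : ℝ), ∀ (B T : ℝ) (z : F), T₂ ≤ T → ι z ∈ U →
      ¬ Pool.Agent.X39.Near.Dependent f (fun k : Fin 0 => k.elim0) 1 (fun _ : Fin 1 => c) F ι d ((A + 1 : ℕ) : ℝ) B T z →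
      NoRelation ι R (periods (Λ (ι z))) δ (T ^ A) := by
    intro F _ _ ι m R δ A
    set ρ : ℕ := ∑ k, (R k).totalDegree with hρ
    set L : ℝ := 1 + ∑ k, Pool.Agent.X255.NP.l1 ((R k).map (Int.castRingHom ℂ)) with hL
    have hRρ : ∀ k, (R k).totalDegree ≤ ρ := fun k =>
      Finset.single_le_sum (f := fun k => (R k).totalDegree) (fun _ _ => Nat.zero_le _) (Finset.mem_univ k)
    have hL1 : 1 ≤ L := by
      have := Finset.sum_nonneg (s := (Finset.univ : Finset (Fin m))) fun k _ =>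
        Pool.Agent.X255.NP.l1_nonneg ((R k).map (Int.castRingHom ℂ))
      linarith
    have hRL : ∀ k, Pool.Agent.X255.NP.l1 ((R k).map (Int.castRingHom ℂ)) ≤ L := by
      intro k
      have := Finset.single_le_sum (f := fun k => Pool.Agent.X255.NP.l1 ((R k).map (Int.castRingHom ℂ)))
        (fun k _ => Pool.Agent.X255.NP.l1_nonneg _) (Finset.mem_univ k)
      linarith
    set D : ℕ := δ * ρ with hD
    refine ⟨6 * D, max 1 (((D : ℝ) + 1) ^ 4 * (((δ : ℝ) + 1) ^ m * L ^ δ * 2 ^ D)), fun B T z hT hz hnd Q hQ hH h0 M => ?_⟩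
    have hT1 : 1 ≤ T := (le_max_left _ _).trans hT
    have hT0 : 0 < T := by linarith
    have h1 := Pool.Agent.X39.Near.gl2 f (fun k : Fin 0 => k.elim0) 1 hct ι hnd hT0
      (Q := Pool.Agent.X39.Near.comp R Q) (Pool.Agent.X39.Near.comp_deg hRρ hQ)
      (R := ((δ : ℝ) + 1) ^ m * (T ^ A * L ^ δ))
      (Pool.Agent.X39.Near.comp_coeff hL1 hRL hQ hH (by positivity)) (by positivity) ?_
      (periods (Λ (ι z))) (hf0 _).symm (hf1 _).symm (hf2 _).symm (hdet _ hz) ?_
    · rw [← Pool.Agent.X39.Near.comp_eval, h1, MvPolynomial.eval₂_zero]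
    · rw [Real.rpow_natCast]
      calc ((D : ℝ) + 1) ^ 4 * (((δ : ℝ) + 1) ^ m * (T ^ A * L ^ δ) * 2 ^ D) =
          (((D : ℝ) + 1) ^ 4 * (((δ : ℝ) + 1) ^ m * L ^ δ * 2 ^ D)) * T ^ A := by ring
        _ ≤ T * T ^ A := mul_le_mul_of_nonneg_right ((le_max_right _ _).trans hT) (by positivity)
        _ = T ^ (A + 1) := by rw [pow_succ]; ring
    · rw [Pool.Agent.X39.Near.comp_eval]
      exact h0
  refine ⟨E, e1, ?_, ?_⟩
  · intro x hx hxE F _ _ ι m R δ A ω hω
    obtain ⟨d, T₂, h1⟩ := key F ι m R δ A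
    obtain ⟨B, T₁, h2⟩ := e2 x hx hxE F ι d (A + 1) ω hω
    obtain ⟨T₃, hT₃⟩ : ∃ T₃ : ℝ, ∀ T : ℝ, T₃ ≤ T → ∀ y : ℂ, ‖y - x‖ ≤ T ^ (-ω) → y ∈ U := by
      obtain ⟨r, hr, hrU⟩ := Metric.isOpen_iff.1 hΛ.isOpen x hx
      have h3 := (tendsto_rpow_neg_atTop hω).eventually (gt_mem_nhds hr)
      obtain ⟨T₃, h4⟩ := Filter.eventually_atTop.1 h3
      exact ⟨T₃, fun T hT y hy => hrU (by rw [Metric.mem_ball, dist_eq_norm]; exact hy.trans_lt (h4 T hT))⟩
    refine ⟨max (max T₁ T₂) T₃, fun T hT z hz hzx => ?_⟩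
    exact h1 B T z ((le_max_right _ _).trans ((le_max_left _ _).trans hT)) (hT₃ T ((le_max_right _ _).trans hT) _ hzx)
      (h2 T ((le_max_left _ _).trans ((le_max_left _ _).trans hT)) z hz hzx)
  · intro x hx hxU hxE m R δ A
    obtain ⟨d, T₂, h1⟩ := key ℚ (algebraMap ℚ ℂ) m R δ A
    obtain ⟨B, n₀, h2⟩ := e3 x hx hxU hxE d (A + 1)
    obtain ⟨n₁, h3⟩ := Pool.Agent.X39.Near.den_conv hx T₂
    obtain ⟨n₂, h4⟩ : ∃ n₂ : ℕ, ∀ n : ℕ, n₂ ≤ n → (algebraMap ℚ ℂ) (x.convergent n) ∈ U := by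
      have h5 : Filter.Tendsto (fun n => ((x.convergent n : ℚ) : ℝ)) Filter.atTop (nhds x) := by
        have h6 : Filter.Tendsto (fun n => (GenContFract.of x).convs n) Filter.atTop (nhds x) :=
          GenContFract.of_convergence x
        exact h6.congr fun n => Real.convs_eq_convergent x n
      have h7 := (Complex.continuous_ofReal.tendsto x).comp h5
      obtain ⟨n₂, h8⟩ := Filter.eventually_atTop.1 (h7.eventually (hΛ.isOpen.mem_nhds hxU))
      refine ⟨n₂, fun n hn => ?_⟩
      have h9 : (((x.convergent n : ℚ) : ℝ) : ℂ) ∈ U := h8 n hn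
      have h10 : (algebraMap ℚ ℂ) (x.convergent n) = (((x.convergent n : ℚ) : ℝ) : ℂ) := by simp
      rw [h10]
      exact h9
    refine ⟨max (max n₀ n₁) n₂, fun n hn => ?_⟩
    exact h1 B _ (x.convergent n) (h3 n ((le_max_right _ _).trans ((le_max_left _ _).trans hn))).le
      (h4 n ((le_max_right _ _).trans hn)) (h2 n ((le_max_left _ _).trans ((le_max_left _ _).trans hn)))

end Pool.Agent.Results.MP_290158_ag.ApproximationsOfAllNumbers
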