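import Pool.Agent.X120.GS.RelY
import Pool.Agent.X120.GS.All
import Pool.Agent.Y123.ST.Out

/-!
# Degree-bounded period relations over number fields at the points `x = b^(-n)` of families

Let `h_i`, `1 ≤ i ≤ k`, be families of G-functions over `ℚ` (with the conditions of Siegel and Galochkin, regular singular with
rational exponents at `∞`) and let `P_i(x)` be the matrix (or any finite family `ν_i`) of functions which are polynomials with
arbitrary complex coefficients in the `h_{i,l}(x)`. In the situation of the problem (`S` an open part of the line over `ℚ` with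
`0 ∈ S`) the period matrix is of this kind: `P(x) = Ω Z(x)` near `0`, where `Ω` is the period matrix of the fibre `X_0` and `Z` is
the fundamental matrix of the Gauss-Manin system with `Z(0) = 1`; the entries of `Z` are G-functions. For `k` families we consider
the product family over `S_1 × … × S_k`, with all the periods `P(x) = (P_1(x_1), …, P_k(x_k))`; the case `k = 1` is the one of the problem.

As in the problem let `B_P` be the `ℚ̄`-Zariski closure of the graph of `P` (by the identity theorem it is the closure of the graph over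
`0 < x_i < ε`, for any `ε`), `B_{P,s}` its fibre and `Z_s` the `ℚ̄`-Zariski closure of `P(s)`.

**Theorem.** Let `δ` and `D` be natural numbers and let `b_i ≥ 2` be integers. There is `C`, depending only on `δ`, `D`, the `h_i`, the
`b_i`, `k`, the numbers and the degrees of the `P_i` as polynomials, such that for every number field `K` of degree at most `D` the
following holds at the points `s = (b_1^(-n_1), …, b_k^(-n_k))` for all but `C T^(k-1) log T` of the tuples `(n_1, …, n_k)` in
`[1, T]^k`; in particular for all but `C log T` of the first `T` fibres of the sequence `b^(-n)` if `k = 1`: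

1. Every polynomial relation `F(P(s)) = 0` over `K = κ(s)` of degree at most `δ` is the specialisation at `x = s` of a
   relation `R(x, P(x)) = 0` over `K[x_1, …, x_k]`, of degree at most `δ` in the periods.
2. `Z_s` admits no relation of degree at most `δ` over `κ(s)` in the sense of the problem: all polynomials over `κ(s)` of degree
   at most `δ` which vanish on `Z_s` vanish on `B_{P,s}`.

Moreover there are `m(T) → ∞` and `ε(T) → 0` such that for every number field `K` of degree at most `m(T)` this holds with `δ = m(T)` for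
all but `ε(T) T^k` tuples in `[1, T]^k`.

The known theorems on the degree-`δ` statement (natural density one of the integers, for a family of hyperelliptic curves, and
the theorems of the library on short intervals and on points of bounded height) have sets of exceptions with at least
`H^c` or `H^(o(1))` elements of height at most `H`. There are only `O(log H)` numbers `b^(-n)` of height at most `H`; so these theorems do not
exclude that the degree-`δ` statement (even for `δ = 1`) fails at all points `b^(-n)`, and here it is proved for all but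
`O(log log H)` of these. The points converge to the good fibre over `0`, but the constants `Ω` are arbitrary, and the relations over `K` between the
numbers `P(s)` involve them; theorems on the values of the G-functions themselves (Bombieri, Chudnovsky, Galochkin) say nothing about these.
Moreover there is no hypothesis on the monodromy, `B_P` can be any variety.

Proof. Windows and multiplicative translates: for separated `n_1 > … > n_D'` in a window `[i, (1 + ε) i]` the functions
`∏_l y_{β_l}(b^(n_1 - n_l) x)` are linearly independent over `ℂ(x)` (`Pool.Agent.X120.GS.Disc`, analytic continuation, no `1`-dimensional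
obstructions because of the singularities on disjoint circles); hence if the vectors `y(b^(-n_l))` of all monomials in the `h`
satisfied linear relations with coefficients in a `ℚ`-space `V` of dimension `D'` for all `l`, the determinant method
with Siegel's lemma would give more than `D'` linear forms which are independent over `ℚ` in values in a `D'`-dimensional space. `V` is the space of the coefficients of
the polynomials in the `h`, it contains the products of the coefficients of `F` and of `Ω`. By linear algebra over `K[x]`, with a basis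
over `K` of the space spanned by the constants, the relations are specialisations of relations over `K[x]` outside of the
zeros of one polynomial of bounded degree.
-/

set_option autoImplicit false

open PowerSeries Filter

namespace Pool.Agent.Results.MP_290158_ag.GeometricSequences

/-- an integer polynomial as a power series with rational coefficients -/
noncomputable def toQ (P : Polynomial ℤ) : PowerSeries ℚ := ((P.map (Int.castRingHom ℚ) : Polynomial ℚ) : PowerSeries ℚ)

/-- the power series `P(u^e)` -/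
noncomputable def atPow (e : ℕ) (P : Polynomial ℤ) : PowerSeries ℂ :=
  ((Polynomial.expand ℂ e (P.map (Int.castRingHom ℂ)) : Polynomial ℂ) : PowerSeries ℂ)

/-- the matrices `G_s` over `ℤ[x]` with `T^s y^(s) = G_s y` for all solutions `y` of `T y' = A y` -/
noncomputable def iter {r : ℕ} (T : Polynomial ℤ) (A : Fin r → Fin r → Polynomial ℤ) : ℕ → Fin r → Fin r → Polynomial ℤ
  | 0 => fun i j => if i = j then 1 else 0
  | s + 1 => fun i j => T * Polynomial.derivative (iter T A s i j) + ∑ l, iter T A s i l * A l j -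
      (s : Polynomial ℤ) * (Polynomial.derivative T * iter T A s i j)

/-- The system `T y' = A y` has a fundamental matrix of solutions of the form `u^(-M) ∑_n Φ_n(u) (log u)^n` with
`u^e = x` and convergent power series `Φ_n`: the point `0` is regular or a regular singularity with rational
exponents. -/
def QuasiUnipotent {r : ℕ} (T : Polynomial ℤ) (A : Fin r → Fin r → Polynomial ℤ) : Prop :=
  ∃ (e M : ℕ) (K : ℝ) (Φ : Matrix (Fin r) (Fin r) (Polynomial (PowerSeries ℂ))), 1 ≤ e ∧ Φ.det ≠ 0 ∧
    (∀ i j n m, ‖coeff m ((Φ i j).coeff n)‖ ≤ K ^ (m + 1)) ∧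
    ∀ i j n, atPow e T * (X * PowerSeries.derivative ℂ ((Φ i j).coeff n) +
        ((n : PowerSeries ℂ) + 1) * (Φ i j).coeff (n + 1) - (M : PowerSeries ℂ) * (Φ i j).coeff n) =
      (e : PowerSeries ℂ) * X ^ e * ∑ l, atPow e (A i l) * (Φ l j).coeff n

/-- `h_1, ..., h_r` are G-functions with rational coefficients which solve the differential system `T y' = A y`, with
the conditions of Siegel and Galochkin, and `∞` is a regular point or a regular singularity with rational exponents of the
system: for `z = 1 / x` the system is `z² T^(z) dy/dz = - A^(z) y` where `T^(z) = z^d T(1/z)` and `A^(z) = z^d A(1/z)` are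
the reflected polynomials. -/
structure GFamily {r : ℕ} (T : Polynomial ℤ) (A : Fin r → Fin r → Polynomial ℤ) (h : Fin r → PowerSeries ℚ) : Prop where
  /-- the denominator is not zero -/
  T_ne : T ≠ 0
  /-- the differential equations -/
  ode : ∀ i, toQ T * PowerSeries.derivative ℚ (h i) = ∑ j, toQ (A i j) * h j
  /-- the coefficients have geometric growth -/
  size : ∃ C : ℝ, ∀ i m, |((coeff m (h i) : ℚ) : ℝ)| ≤ C ^ (m + 1)
  /-- the common denominators of the coefficients have geometric growth -/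
  den : ∃ C : ℝ, ∀ m : ℕ, ∃ d : ℕ, 0 < d ∧ (d : ℝ) ≤ C ^ (m + 1) ∧ ∀ i, ∀ j ≤ m, ∃ a : ℤ, (d : ℚ) * coeff j (h i) = a
  /-- Galochkin's condition: the common denominators of the matrices `G_s / s!` have geometric growth -/
  galochkin : ∃ C : ℝ, ∀ m : ℕ, ∃ d : ℕ, 0 < d ∧ (d : ℝ) ≤ C ^ (m + 1) ∧ ∀ s ≤ m, ∀ i j,
    ∃ H : Polynomial ℤ, (d : Polynomial ℤ) * iter T A s i j = (s.factorial : Polynomial ℤ) * H
  /-- the local exponents at `∞` are rational and the singularity is regular -/
  regular_infty : ∃ d : ℕ, T.natDegree ≤ d ∧ (∀ i j, (A i j).natDegree ≤ d) ∧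
    QuasiUnipotent (Polynomial.X ^ 2 * T.reflect d) (fun i j => - (A i j).reflect d)

theorem iter_eq {r : ℕ} (T : Polynomial ℤ) (A : Fin r → Fin r → Polynomial ℤ) (s : ℕ) :
    iter T A s = Pool.Agent.Y120.GH.itm T A s := by
  induction s with
  | zero => rfl
  | succ s ih =>
    funext i j
    rw [iter, Pool.Agent.Y120.GH.itm, ih]

theorem qu_eq {r : ℕ} {T : Polynomial ℤ} {A : Fin r → Fin r → Polynomial ℤ} (h : QuasiUnipotent T A) :
    Pool.Agent.Y120.GH.QU0 T A := by
  obtain ⟨e, M, K, Φ, he, hdet, hc, heq⟩ := h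
  have he0 : e ≠ 0 := by omega
  refine ⟨e, he0, M, K, Φ, hc, fun i j n => ?_, hdet⟩
  have h1 := heq i j n
  simp only [atPow] at h1
  rw [Pool.Agent.Y120.GH.expand_poly he0]
  simp only [Pool.Agent.Y120.GH.expand_poly he0]
  exact h1

theorem fam {r : ℕ} {T : Polynomial ℤ} {A : Fin r → Fin r → Polynomial ℤ} {h : Fin r → PowerSeries ℚ}
    (hG : GFamily T A h) {b : ℕ} (hb : 2 ≤ b) (δ : ℕ) : Pool.Agent.X120.GS.FamG δ h b := by
  obtain ⟨d, hTd, hAd, hqu⟩ := hG.regular_infty
  obtain ⟨B, a, M, h1, h2, h3⟩ := Pool.Agent.X120.GS.family_mainS hG.T_ne hG.ode hG.size hG.den (by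
    obtain ⟨C, hC⟩ := hG.galochkin
    refine ⟨C, fun m => ?_⟩
    obtain ⟨d, h1, h2, h3⟩ := hC m
    refine ⟨d, h1, h2, fun s hs i' j' => ?_⟩
    rw [← iter_eq]
    exact h3 s hs i' j') hTd hAd (qu_eq hqu) δ
  exact ⟨hG.size, B, a, M, h1, h2, h3 b hb⟩

section
variable {k : ℕ} {ρ : Fin k → ℕ} {ν : Fin k → Type}

/-- The periods at `x = (x_1, …, x_k)`: the polynomials `P i v`, `v ∈ ν i`, in the `h_{i,l}(x_i)`. -/
noncomputable def periods (h : ∀ i, Fin (ρ i) → PowerSeries ℚ) (P : ∀ i, ν i → MvPolynomial (Fin (ρ i)) ℂ) (x : Fin k → ℝ)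
    (v : Σ i, ν i) : ℂ :=
  MvPolynomial.aeval (fun l => ((∑' m : ℕ, ((coeff m (h v.1 l) : ℚ) : ℝ) * x v.1 ^ m : ℝ) : ℂ)) (P v.1 v.2)

/-- the field of algebraic numbers -/
noncomputable abbrev Qbar : IntermediateField ℚ ℂ := algebraicClosure ℚ ℂ

/-- The `ℚ̄`-Zariski closure of the graph of the period map (over the `x` with `0 < x_i < ε`, which does not depend on `ε`). -/
def graphClosure (h : ∀ i, Fin (ρ i) → PowerSeries ℚ) (P : ∀ i, ν i → MvPolynomial (Fin (ρ i)) ℂ) :
    Set ((Fin k → ℂ) × ((Σ i, ν i) → ℂ)) :=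
  {p | ∀ G : MvPolynomial (Fin k ⊕ Σ i, ν i) Qbar,
    (∃ ε : ℝ, 0 < ε ∧ ∀ x : Fin k → ℝ, (∀ i, 0 < x i ∧ x i < ε) →
      MvPolynomial.aeval (Sum.elim (fun i => (x i : ℂ)) (periods h P x)) G = 0) →
    MvPolynomial.aeval (Sum.elim p.1 p.2) G = 0}

/-- The `ℚ̄`-Zariski closure of a point. -/
def pointClosure (w : (Σ i, ν i) → ℂ) : Set ((Σ i, ν i) → ℂ) :=
  {Y | ∀ G : MvPolynomial (Σ i, ν i) Qbar, MvPolynomial.aeval w G = 0 → MvPolynomial.aeval Y G = 0}

/-- A relation of degree at most `δ` over `K`: a polynomial which vanishes on `Z` but not on `B`. -/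
def HasRelation (K : Subfield ℂ) (δ : ℕ) (Z B : Set ((Σ i, ν i) → ℂ)) : Prop :=
  ∃ F : MvPolynomial (Σ i, ν i) K, F.totalDegree ≤ δ ∧ (∀ Y ∈ Z, MvPolynomial.aeval Y F = 0) ∧
    ∃ Y ∈ B, MvPolynomial.aeval Y F ≠ 0

/-- The conclusion at the point `s = (b_1^(-t_1), …, b_k^(-t_k))`: all relations over `K` of degree at most `δ` are
specialisations of relations over `K[x]`, and there is no relation of degree at most `δ` in the sense of the problem. -/
def Good (K : Subfield ℂ) (δ : ℕ) (h : ∀ i, Fin (ρ i) → PowerSeries ℚ) (P : ∀ i, ν i → MvPolynomial (Fin (ρ i)) ℂ)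
    (b t : Fin k → ℕ) : Prop :=
  (∀ F : MvPolynomial (Σ i, ν i) K, F.totalDegree ≤ δ →
    MvPolynomial.aeval (periods h P fun i => 1 / (b i : ℝ) ^ t i) F = 0 →
    ∃ R : MvPolynomial (Σ i, ν i) (MvPolynomial (Fin k) K), R.totalDegree ≤ δ ∧
      MvPolynomial.map (MvPolynomial.eval fun i => 1 / (b i : K) ^ t i) R = F ∧
      ∃ ε : ℝ, 0 < ε ∧ ∀ x : Fin k → ℝ, (∀ i, 0 < x i ∧ x i < ε) →
        MvPolynomial.eval₂ (MvPolynomial.eval₂Hom (algebraMap K ℂ) fun i => (x i : ℂ)) (periods h P x) R = 0) ∧
  ¬ HasRelation K δ (pointClosure (periods h P fun i => 1 / (b i : ℝ) ^ t i))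
    {Y | ((fun i => 1 / (b i : ℂ) ^ t i), Y) ∈ graphClosure h P}

theorem periods_eq (h : ∀ i, Fin (ρ i) → PowerSeries ℚ) (P : ∀ i, ν i → MvPolynomial (Fin (ρ i)) ℂ) (s : Fin k → ℝ) :
    Pool.Agent.Y120.R.pn h (Pool.Agent.X120.GS.so P) s = periods h P fun i => 1 / s i := by
  funext v
  show MvPolynomial.aeval (Pool.Agent.Y120.R.p1 (h v.1) (s v.1)) (MvPolynomial.rename some (P v.1 v.2)) = _
  rw [MvPolynomial.aeval_rename]
  rfl

/-- the second part follows from the first -/
theorem no_relation {K : Subfield ℂ} (hK : FiniteDimensional ℚ K) {δ : ℕ} {h : ∀ i, Fin (ρ i) → PowerSeries ℚ}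
    {P : ∀ i, ν i → MvPolynomial (Fin (ρ i)) ℂ} {b t : Fin k → ℕ}
    (h1 : ∀ F : MvPolynomial (Σ i, ν i) K, F.totalDegree ≤ δ →
      MvPolynomial.aeval (periods h P fun i => 1 / (b i : ℝ) ^ t i) F = 0 →
      ∃ R : MvPolynomial (Σ i, ν i) (MvPolynomial (Fin k) K), R.totalDegree ≤ δ ∧
        MvPolynomial.map (MvPolynomial.eval fun i => 1 / (b i : K) ^ t i) R = F ∧
        ∃ ε : ℝ, 0 < ε ∧ ∀ x : Fin k → ℝ, (∀ i, 0 < x i ∧ x i < ε) →
          MvPolynomial.eval₂ (MvPolynomial.eval₂Hom (algebraMap K ℂ) fun i => (x i : ℂ)) (periods h P x) R = 0) :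
    ¬ HasRelation K δ (pointClosure (periods h P fun i => 1 / (b i : ℝ) ^ t i))
      {Y | ((fun i => 1 / (b i : ℂ) ^ t i), Y) ∈ graphClosure h P} := by
  rintro ⟨F, hFd, hFZ, Y, hY, hFY⟩
  have hself : periods h P (fun i => 1 / (b i : ℝ) ^ t i) ∈ pointClosure (periods h P fun i => 1 / (b i : ℝ) ^ t i) :=
    fun G hG => hG
  obtain ⟨R, hRd, hRF, ε, hε, hR⟩ := h1 F hFd (hFZ _ hself)
  apply hFY
  have hKalg : ∀ x : K, ((x : ℂ)) ∈ Qbar := by
    intro x
    have : NumberField K := { to_charZero := inferInstance, to_finiteDimensional := hK }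
    have h6 : IsAlgebraic ℚ x := Algebra.IsAlgebraic.isAlgebraic _
    exact mem_algebraicClosure_iff.mpr (h6.algebraMap (A := ℂ))
  let φ : K →+* Qbar := (algebraMap K ℂ).codRestrict Qbar hKalg
  have hφ : (algebraMap Qbar ℂ).comp φ = algebraMap K ℂ := by
    ext x
    rfl
  let Ψ : MvPolynomial (Σ i, ν i) (MvPolynomial (Fin k) K) →+* MvPolynomial (Fin k ⊕ Σ i, ν i) Qbar :=
    MvPolynomial.eval₂Hom (MvPolynomial.eval₂Hom (MvPolynomial.C.comp φ) fun i => MvPolynomial.X (Sum.inl i))
      fun v => MvPolynomial.X (Sum.inr v)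
  have hΨ : ∀ (x : Fin k → ℂ) (Y : (Σ i, ν i) → ℂ), MvPolynomial.aeval (Sum.elim x Y) (Ψ R) =
      MvPolynomial.eval₂ (MvPolynomial.eval₂Hom (algebraMap K ℂ) x) Y R := by
    intro x Y
    have h2 : ((MvPolynomial.aeval (Sum.elim x Y) : MvPolynomial (Fin k ⊕ Σ i, ν i) Qbar →ₐ[Qbar] ℂ) : _ →+* ℂ).comp Ψ =
        MvPolynomial.eval₂Hom (MvPolynomial.eval₂Hom (algebraMap K ℂ) x) Y := by
      refine MvPolynomial.ringHom_ext' (MvPolynomial.ringHom_ext' ?_ ?_) ?_
      · ext a
        simp [Ψ]
        rfl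
      · intro i
        simp [Ψ]
      · intro v
        simp [Ψ]
    exact RingHom.congr_fun h2 R
  have h3 := hY (Ψ R) ⟨ε, hε, fun x hx => by
    rw [hΨ]
    exact hR x hx⟩
  rw [hΨ] at h3
  rw [← hRF, MvPolynomial.aeval_def, MvPolynomial.eval₂_map, ← h3]
  congr 1
  refine MvPolynomial.ringHom_ext' ?_ ?_
  · ext a
    simp
  · intro i
    simp

end

/-- **The theorem.** `P i` is the period matrix (its entries are numbered by `ν i`) of the `i`-th family, `b i ≥ 2`. -/
theorem result (k e : ℕ) (ρ : Fin k → ℕ) (ν : Fin k → Type) [∀ i, Fintype (ν i)] (T : Fin k → Polynomial ℤ)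
    (A : ∀ i, Fin (ρ i) → Fin (ρ i) → Polynomial ℤ) (h : ∀ i, Fin (ρ i) → PowerSeries ℚ)
    (hG : ∀ i, GFamily (T i) (A i) (h i)) (b : Fin k → ℕ) (hb : ∀ i, 2 ≤ b i) :
    -- relations of degree at most `δ`, number fields of degree at most `D`
    (∀ δ D : ℕ, ∃ C : ℝ, 0 ≤ C ∧ ∀ P : ∀ i, ν i → MvPolynomial (Fin (ρ i)) ℂ, (∀ i v, (P i v).totalDegree ≤ e) →
      ∀ K : Subfield ℂ, FiniteDimensional ℚ K → Module.finrank ℚ K ≤ D → ∀ N : ℕ, 2 ≤ N →
      (({t : Fin k → ℕ | (∀ i, 1 ≤ t i ∧ t i ≤ N) ∧ ¬ Good K δ h P b t}.ncard : ℕ) : ℝ) * N ≤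
        C * (N : ℝ) ^ k * Real.log N) ∧
    -- degrees `m N`, which tend to infinity
    (∃ (m : ℕ → ℕ) (ε : ℕ → ℝ), Tendsto m atTop atTop ∧ Tendsto ε atTop (nhds 0) ∧
      ∀ P : ∀ i, ν i → MvPolynomial (Fin (ρ i)) ℂ, (∀ i v, (P i v).totalDegree ≤ e) → ∀ N : ℕ, 2 ≤ N →
      ∀ K : Subfield ℂ, FiniteDimensional ℚ K → Module.finrank ℚ K ≤ m N →
      (({t : Fin k → ℕ | (∀ i, 1 ≤ t i ∧ t i ≤ N) ∧ ¬ Good K (m N) h P b t}.ncard : ℕ) : ℝ) ≤ ε N * (N : ℝ) ^ k) := by
  classical
  have hmain : ∀ δ D : ℕ, ∃ C : ℝ, 0 ≤ C ∧ ∀ P : ∀ i, ν i → MvPolynomial (Fin (ρ i)) ℂ, (∀ i v, (P i v).totalDegree ≤ e) →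
      ∀ K : Subfield ℂ, FiniteDimensional ℚ K → Module.finrank ℚ K ≤ D → ∀ N : ℕ, 2 ≤ N →
      (({t : Fin k → ℕ | (∀ i, 1 ≤ t i ∧ t i ≤ N) ∧ ¬ Good K δ h P b t}.ncard : ℕ) : ℝ) * N ≤
        C * (N : ℝ) ^ k * Real.log N := by
    intro δ D
    obtain ⟨C, hC, hmain⟩ := Pool.Agent.X120.GS.relYS' (h := h) (ν := ν) δ e D hb fun i => fam (hG i) (hb i) (δ * e)
    refine ⟨C, hC, ?_⟩
    intro P hP K hK hKD N hN
    set E := {t : Fin k → ℕ | (∀ i, 1 ≤ t i ∧ t i ≤ N) ∧ ¬ Good K δ h P b t} with hE
    have hfin : E.Finite := by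
      refine (Set.finite_Iic (fun _ : Fin k => N)).subset ?_
      intro t ht i
      exact (ht.1 i).2
    rw [Set.ncard_eq_toFinset_card E hfin]
    refine hmain P hP K hKD N hN _ fun t ht => ?_
    have ht' : t ∈ E := hfin.mem_toFinset.1 ht
    refine ⟨ht'.1, ?_⟩
    by_contra hno
    refine ht'.2 ?_
    have htp : ∀ i, ((Pool.Agent.X120.GS.tp b t i : ℕ) : ℝ) = (b i : ℝ) ^ t i := by
      intro i
      unfold Pool.Agent.X120.GS.tp
      push_cast
      rfl
    have htpK : ∀ i, ((Pool.Agent.X120.GS.tp b t i : ℕ) : K) = (b i : K) ^ t i := by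
      intro i
      unfold Pool.Agent.X120.GS.tp
      push_cast
      rfl
    have hfirst : ∀ F : MvPolynomial (Σ i, ν i) K, F.totalDegree ≤ δ →
        MvPolynomial.aeval (periods h P fun i => 1 / (b i : ℝ) ^ t i) F = 0 →
        ∃ R : MvPolynomial (Σ i, ν i) (MvPolynomial (Fin k) K), R.totalDegree ≤ δ ∧
          MvPolynomial.map (MvPolynomial.eval fun i => 1 / (b i : K) ^ t i) R = F ∧
          ∃ ε : ℝ, 0 < ε ∧ ∀ x : Fin k → ℝ, (∀ i, 0 < x i ∧ x i < ε) →
            MvPolynomial.eval₂ (MvPolynomial.eval₂Hom (algebraMap K ℂ) fun i => (x i : ℂ)) (periods h P x) R = 0 := by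
      intro F hFd hF0
      by_contra hne
      refine hno ⟨F, hFd, ?_, ?_⟩
      · rw [periods_eq]
        simp only [htp]
        exact hF0
      · rintro ⟨R, hRd, ⟨τ, hRτ⟩, hRF⟩
        refine hne ⟨R, hRd, ?_, 1 / (|τ| + 1), by positivity, ?_⟩
        · rw [← hRF]
          simp only [htpK]
        · intro x hx
          have h5 : ∀ i, τ < 1 / x i := by
            intro i
            have h6 : |τ| + 1 < 1 / x i := by
              rw [lt_one_div (by positivity) (hx i).1]
              exact (hx i).2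
            have := le_abs_self τ
            linarith
          have h7 := hRτ (fun i => 1 / x i) h5
          rw [periods_eq] at h7
          simpa only [one_div, inv_inv, Complex.ofReal_inv] using h7
    exact ⟨hfirst, no_relation hK hfirst⟩
  refine ⟨hmain, ?_⟩
  choose C hC hcount using hmain
  obtain ⟨D, hD, hδ⟩ := Pool.Agent.Y123.GN.diag_seq (fun D N => C D D * (Real.log N / N)) (by
      intro D
      have h1 : Tendsto (fun N : ℕ => Real.log N / N) atTop (nhds 0) :=
        (Real.isLittleO_log_id_atTop.tendsto_div_nhds_zero).comp tendsto_natCast_atTop_atTop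
      have h5 := h1.const_mul (C D D)
      rw [mul_zero] at h5
      exact h5)
  refine ⟨D, _, hD, hδ, ?_⟩
  intro P hP N hN K hK hKD
  have h1 := hcount (D N) (D N) P hP K hK hKD N hN
  have hN0 : (0 : ℝ) < N := by
    have : 0 < N := by omega
    exact_mod_cast this
  rw [← le_div_iff₀ hN0] at h1
  refine h1.trans (le_of_eq ?_)
  ring

end Pool.Agent.Results.MP_290158_ag.GeometricSequences
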