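import Pool.Agent.X120.GS.Hyv

/-!
# Degree-bounded period relations of hypergeometric families at the points `b^(-n)`

Let `β_(i,1), …, β_(i,m_i)` be rational numbers which are not integers and `θ = z d/dz`. The hypergeometric operator
`θ^(2 m_i) - z ∏_j (θ - β_(i,j)) (θ + β_(i,j))` has maximally unipotent monodromy at `z = 0`. For `m_i = 1` its solutions are periods of families
of elliptic curves, for `m_i = 2` it is contiguous to the operators of the families of Calabi-Yau threefolds like the mirror quintic. The period matrix of the fibre at `z` is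
`W_i = (Y_i(z) Ω_i)ᵀ` (rows: Betti side, columns: de Rham side), where `Y_i(z)` is the matrix of the `(θ^a f_b)(z)`, `f_b` the Frobenius basis (with the powers
of `log z`), and `Ω_i` is an invertible matrix of constants, the periods of the limit motive. For a motive over `K` with a polarisation with values in `ℚ(-w_i)`
one has `Ω_iᵀ J_i Ω_i = (2πi)^(w_i) B_i` with `B_i` over `K`. The monodromy group is Zariski dense in the symplectic group, and the fibre at `z` of the closure over `ℚbar` of the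
graph of the period matrices (`B_(P,s)` in the problem) is the torsor of all `X` for which there is a `μ ≠ 0` with `X_i J_i X_iᵀ = μ^(w_i) B_i`.

**Theorem.** Let `b_i ≥ 2` be integers. Given `D` and `δ`, for all but `C N^(k-1) log N` of the tuples `(t_1, …, t_k)` in `[1, N]^k` (for `k = 1` for all but `C log N` of the first `N` fibres over
`b^(-t)`), where `C` depends only on the `β_i`, the `b_i`, `D` and `δ`, for all `Ω_i` and for all number fields `K` of degree at most `D` at once (and over which the `B_i` are defined), the following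
holds at the point `(b_1^(-t_1), …, b_k^(-t_k))`: a polynomial over `K` of degree at most `δ` in the periods and `2πi` vanishes if and only if it vanishes on the torsor of all `(X, μ)`, `μ ≠ 0`,
`X_i J_i X_iᵀ = μ^(w_i) B_i`. In particular the closure `Z` of the point `W` over `ℚbar` has no relation of degree at most `δ` over `K`: all polynomials over `K` of degree at
most `δ` in the ideal of `Z` are in the ideal of `B_(P,s)`. There are also `M(N) → ∞` and `ε(N) → 0` such that for all but `ε(N) N^k` tuples in `[1, N]^k` this holds for all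
degrees and all number fields of degree at most `M(N)`.

Here `k = 1` is the setting of the problem; for `k > 1` it is the family of products. Known results for these families are about `z = 1 / s` for almost all integers `s` (the problem file
mentions density one of the integers for hyperelliptic families); the exceptional sets could contain all powers of `b`. `MP_290158_ag.GeometricSequences` is for families with a good fibre over `0`, for single
number fields, and it assumes that the singularity at infinity is regular with rational exponents; for hypergeometric families this is proved here.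

Proof. The local system of the entries of the period matrix (without the logarithms) has a regular singularity with rational exponents at `z = ∞`: we prove the theorem of Frobenius and Fuchs
for systems `z y' = B(z) y` such that all eigenvalues of `B(0)` are rational (`Pool.Agent.X120.GS.Frb`). So the
counting theorem on geometric sequences (`Pool.Agent.X120.GS`) can be applied to the relations with coefficients in spaces of bounded dimension, for which `log z_i = - t_i log b_i` is a constant up to a rational factor. The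
relations between the functions (helper119, `Pool.Agent.Y119.HY`) are those of the symplectic forms. For all fields at once consider the relations over `ℚ` of degree `≤ δ D^D` on a curve
in the group: one conjugate of `F` over `ℚ` vanishes on the curve, and the Galois group permutes these (`Pool.Agent.Y123.GN`). Finally `2πi` is transcendental.
-/

set_option autoImplicit false

open PowerSeries Matrix Filter

namespace Pool.Agent.Results.MP_290158_ag.HypergeometricFibresAtPowers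

/-- the power series `k + ε` in the variable `ε` -/
noncomputable def shift (k : ℕ) : PowerSeries ℚ := C (k : ℚ) + X

/-- `a_k(ε) = ∏_{l < k} ∏_j ((l + ε)^2 - β_j^2) / (l + 1 + ε)^(2m)`. The series `∑_k a_k(ε) z^(k + ε)` solves the
equation `(θ^n - z ∏_j (θ^2 - β_j^2)) f = ε^n z^ε`, hence its coefficients `f_j` at `ε^j` with `j < n = 2m` are
solutions of the homogeneous equation. -/
noncomputable def frob {m : ℕ} (β : Fin m → ℚ) (k : ℕ) : PowerSeries ℚ :=
  ∏ l ∈ Finset.range k, ((∏ j, (shift l ^ 2 - C (β j ^ 2))) * ((shift (l + 1))⁻¹) ^ (2 * m))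

/-- The matrix with the entries `(θ^i f_j)(1 / t)`, where `f_j(z)` is the coefficient of `ε^j` in the series
`∑_k a_k(ε) z^(k + ε)`, `z^ε = ∑_l (log z)^l ε^l / l!`. -/
noncomputable def Y {m : ℕ} (β : Fin m → ℚ) (t : ℕ) : Matrix (Fin (2 * m)) (Fin (2 * m)) ℂ :=
  Matrix.of fun i j => ∑ l ∈ Finset.range ((j : ℕ) + 1), ((Real.log (1 / t) ^ l / l.factorial : ℝ) : ℂ) *
    ∑' k : ℕ, ((coeff ((j : ℕ) - l) (shift k ^ (i : ℕ) * frob β k) : ℚ) : ℂ) * (1 / (t : ℂ)) ^ k

/-- the polynomial `∏_j (x^2 - β_j^2)` -/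
noncomputable def poly {m : ℕ} (β : Fin m → ℚ) : Polynomial ℚ := ∏ j, (Polynomial.X ^ 2 - Polynomial.C (β j ^ 2))

/-- The matrix of the intersection form: the entry `(i, j)` is `(-1)^i q_{i+j+1-n}` for `i + j + 1 ≥ n` and `0`
otherwise, where `q_l` are the coefficients of `∏_j (x^2 - β_j^2)`. -/
noncomputable def J {m : ℕ} (β : Fin m → ℚ) : Matrix (Fin (2 * m)) (Fin (2 * m)) ℂ :=
  Matrix.of fun i j => if 2 * m ≤ (i : ℕ) + j + 1 then (((-1) ^ (i : ℕ) * (poly β).coeff (i + j + 1 - 2 * m) : ℚ) : ℂ) else 0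

/-- the form on the Betti side -/
noncomputable def pairing {m : ℕ} (β : Fin m → ℚ) (Ω : Matrix (Fin (2 * m)) (Fin (2 * m)) ℂ) :
    Matrix (Fin (2 * m)) (Fin (2 * m)) ℂ := Ωᵀ * J β * Ω

/-- the number `2πi` -/
noncomputable def twoPiI : ℂ := 2 * Real.pi * Complex.I

/-- the entries of the matrices `X_i` and the constants `ξ_j` -/
def entries {k r : ℕ} {m : Fin k → ℕ} (X : ∀ i, Matrix (Fin (2 * m i)) (Fin (2 * m i)) ℂ) (ξ : Fin r → ℂ) :
    (Σ i, Fin (2 * m i) × Fin (2 * m i)) ⊕ Fin r → ℂ :=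
  Sum.elim (fun v => X v.1 v.2.1 v.2.2) ξ

/-- the period matrices of the fibres over `z_i = 1 / s_i` -/
noncomputable def periods {k : ℕ} {m : Fin k → ℕ} (β : ∀ i, Fin (m i) → ℚ)
    (Ω : ∀ i, Matrix (Fin (2 * m i)) (Fin (2 * m i)) ℂ) (s : Fin k → ℕ) (i : Fin k) :
    Matrix (Fin (2 * m i)) (Fin (2 * m i)) ℂ := (Y (β i) (s i) * Ω i)ᵀ

/-- the torsor of all `(X, μ)` with `μ ≠ 0` and `X_i J_i X_iᵀ = μ^(w_i) B_i` -/
def torsor {k : ℕ} {m : Fin k → ℕ} (β : ∀ i, Fin (m i) → ℚ) (w : Fin k → ℕ)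
    (B : ∀ i, Matrix (Fin (2 * m i)) (Fin (2 * m i)) ℂ) : Set ((∀ i, Matrix (Fin (2 * m i)) (Fin (2 * m i)) ℂ) × ℂ) :=
  {y | y.2 ≠ 0 ∧ ∀ i, y.1 i * J (β i) * (y.1 i)ᵀ = y.2 ^ w i • B i}

/-- the Zariski closure of the point `W` over the algebraic numbers -/
def pointClosure {k : ℕ} {m : Fin k → ℕ} (W : ∀ i, Matrix (Fin (2 * m i)) (Fin (2 * m i)) ℂ) :
    Set (∀ i, Matrix (Fin (2 * m i)) (Fin (2 * m i)) ℂ) :=
  {X | ∀ G : MvPolynomial (Σ i, Fin (2 * m i) × Fin (2 * m i)) (algebraicClosure ℚ ℂ),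
    MvPolynomial.aeval (fun v : Σ i, Fin (2 * m i) × Fin (2 * m i) => W v.1 v.2.1 v.2.2) G = 0 →
    MvPolynomial.aeval (fun v : Σ i, Fin (2 * m i) × Fin (2 * m i) => X v.1 v.2.1 v.2.2) G = 0}

/-- the conclusion for one tuple of fibres over `1 / s_i` -/
def Good (D δ : ℕ) {k : ℕ} {m : Fin k → ℕ} (β : ∀ i, Fin (m i) → ℚ)
    (Ω : ∀ i, Matrix (Fin (2 * m i)) (Fin (2 * m i)) ℂ) (s : Fin k → ℕ) : Prop :=
  ∀ K : Subfield ℂ, FiniteDimensional ℚ K → Module.finrank ℚ K ≤ D →
  ∀ (w : Fin k → ℕ) (B : ∀ i, Matrix (Fin (2 * m i)) (Fin (2 * m i)) ℂ), (∀ i a b, B i a b ∈ K) →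
    (∀ i, pairing (β i) (Ω i) = twoPiI ^ w i • B i) →
    -- a polynomial in the periods and `2πi` vanishes if and only if it vanishes on the torsor
    (∀ F : MvPolynomial ((Σ i, Fin (2 * m i) × Fin (2 * m i)) ⊕ Fin 1) K, F.totalDegree ≤ δ →
      (MvPolynomial.aeval (entries (periods β Ω s) fun _ => twoPiI) F = 0 ↔
        ∀ y ∈ torsor β w B, MvPolynomial.aeval (entries y.1 fun _ => y.2) F = 0)) ∧
    -- the closure of the point `W` has no relations of degree at most `δ` over `K`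
    (∀ F : MvPolynomial (Σ i, Fin (2 * m i) × Fin (2 * m i)) K, F.totalDegree ≤ δ →
      (∀ X ∈ pointClosure (periods β Ω s), MvPolynomial.aeval (fun v : Σ i, Fin (2 * m i) × Fin (2 * m i) => X v.1 v.2.1 v.2.2) F = 0) →
      ∀ y ∈ torsor β w B, MvPolynomial.aeval (fun v : Σ i, Fin (2 * m i) × Fin (2 * m i) => y.1 v.1 v.2.1 v.2.2) F = 0)

theorem shift_eq (k : ℕ) : shift k = Pool.Agent.Y119.HY.kx k := rfl

theorem frob_eq {m : ℕ} (β : Fin m → ℚ) (k : ℕ) : frob β k = Pool.Agent.Y119.HY.aq (2 * m) (Pool.Agent.Y119.HY.QB β) k := by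
  unfold frob Pool.Agent.Y119.HY.aq
  refine Finset.prod_congr rfl fun l _ => ?_
  congr 1
  unfold Pool.Agent.Y119.HY.QB
  rw [map_prod]
  refine Finset.prod_congr rfl fun j _ => ?_
  simp only [map_sub, map_pow, Polynomial.aeval_X, Polynomial.aeval_C]
  rfl

theorem J_eq {m : ℕ} (β : Fin m → ℚ) :
    J β = Pool.Agent.Y119.HY.cm (Pool.Agent.Y119.HY.Jm (2 * m) (Pool.Agent.Y119.HY.QB β)) := by
  ext i j
  rw [Pool.Agent.Y119.HY.cm_apply]
  unfold J Pool.Agent.Y119.HY.Jm
  rw [Matrix.of_apply, Matrix.of_apply]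
  split_ifs
  · rfl
  · simp

theorem Y_eq {m : ℕ} (β : Fin m → ℚ) (t : ℕ) :
    Y β t = Pool.Agent.Y119.HZ.Yt (2 * m) (Pool.Agent.Y119.HY.QB β) t := by
  ext i j
  unfold Y Pool.Agent.Y119.HZ.Yt
  rw [Matrix.of_apply, Matrix.mul_apply]
  have hE : ∀ c : Fin (2 * m), Pool.Agent.Y119.HY.E (Pool.Agent.Y119.HY.cm (Pool.Agent.Y119.HY.Am (2 * m)))
      (-((Real.log t : ℝ) : ℂ)) c j = ∑ l ∈ Finset.range (2 * m),
        if (j : ℕ) = c + l then ((Real.log (1 / t) ^ l / l.factorial : ℝ) : ℂ) else 0 := by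
    intro c
    unfold Pool.Agent.Y119.HY.E
    rw [Matrix.sum_apply]
    refine Finset.sum_congr rfl fun l _ => ?_
    rw [Matrix.smul_apply, ← Pool.Agent.Y119.HY.cm_pow, Pool.Agent.Y119.HY.cm_apply, Pool.Agent.Y119.HY.Am_pow, smul_eq_mul,
      one_div, Real.log_inv]
    split_ifs
    · push_cast
      ring
    · simp
  simp only [hE, Finset.mul_sum]
  rw [Finset.sum_comm]
  have hsub : Finset.range ((j : ℕ) + 1) ⊆ Finset.range (2 * m) := by
    intro l hl
    rw [Finset.mem_range] at hl ⊢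
    have := j.2
    omega
  refine Finset.sum_subset_zero_on_sdiff hsub (fun l hl => ?_) fun l hl => ?_
  · rw [Finset.mem_sdiff, Finset.mem_range, Finset.mem_range] at hl
    refine Finset.sum_eq_zero fun c _ => ?_
    rw [if_neg (by omega), mul_zero]
  · rw [Finset.mem_range] at hl
    have hj := j.2
    rw [Finset.sum_eq_single (⟨(j : ℕ) - l, by omega⟩ : Fin (2 * m))]
    · rw [if_pos (by simp only; omega), mul_comm]
      congr 1
      unfold Pool.Agent.Y119.HY.Hf Pool.Agent.Y119.HY.ps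
      rw [Matrix.of_apply]
      refine tsum_congr fun k => ?_
      show _ = ((Pool.Agent.Y119.HY.hq (2 * m) (Pool.Agent.Y119.HY.QB β) k i ((j : ℕ) - l) : ℚ) : ℂ) *
        (((1 / (t : ℝ) : ℝ)) : ℂ) ^ k
      rw [frob_eq, shift_eq]
      unfold Pool.Agent.Y119.HY.hq
      push_cast
      rfl
    · intro c _ hc
      rw [if_neg, mul_zero]
      intro h
      apply hc
      apply Fin.ext
      simp only
      omega
    · intro h
      exact absurd (Finset.mem_univ _) h

/-- the conclusion from the stability of the relations -/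
theorem good_of {k : ℕ} {m : Fin k → ℕ} (hm : ∀ i, 1 ≤ m i) {β : ∀ i, Fin (m i) → ℚ}
    (hβ : ∀ i, ∀ j, ∀ l : ℕ, (l : ℚ) + β i j ≠ 0 ∧ (l : ℚ) + -β i j ≠ 0) {D δ : ℕ}
    {Ω : ∀ i, Matrix (Fin (2 * m i)) (Fin (2 * m i)) ℂ}
    (hΩ : ∀ i, IsUnit (Ω i)) {s : Fin k → ℕ} (hs : ∀ i, 2 ≤ s i)
    (hgood : Pool.Agent.X120.GS.GoodY (n := fun i => 2 * m i) D δ (Matrix.diagonal fun _ : Fin 1 => twoPiI)
      (fun i => (Pool.Agent.Y119.HZ.Yt (2 * m i) (Pool.Agent.Y119.HY.QB (β i)) (s i) * Ω i)ᵀ)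
      (fun i => (Ω i)ᵀ * Pool.Agent.Y119.HY.cm (Pool.Agent.Y119.HY.Jm (2 * m i) (Pool.Agent.Y119.HY.QB (β i))) * Ω i)) :
    Good D δ β Ω s := by
  classical
  intro K hKf hKD w B hBK hP
  have hKalg : ∀ x ∈ K, IsAlgebraic ℚ x := by
    intro x hx
    have : NumberField K := { to_charZero := inferInstance, to_finiteDimensional := hKf }
    have h6 : IsAlgebraic ℚ (⟨x, hx⟩ : K) := Algebra.IsAlgebraic.isAlgebraic _
    exact h6.algebraMap (A := ℂ)
  have hQ := fun i => Pool.Agent.Y119.HZ.QD_QB (hm i) (hβ i)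
  have hW : periods β Ω s = fun i => (Pool.Agent.Y119.HZ.Yt (2 * m i) (Pool.Agent.Y119.HY.QB (β i)) (s i) * Ω i)ᵀ := by
    funext i
    unfold periods
    rw [Y_eq]
  have hPB : ∀ i, (Ω i)ᵀ * Pool.Agent.Y119.HY.cm (Pool.Agent.Y119.HY.Jm (2 * m i) (Pool.Agent.Y119.HY.QB (β i))) * Ω i =
      Pool.Agent.Y123.GN.tpi ^ w i • B i := by
    intro i
    rw [← J_eq]
    exact hP i
  have hBd : ∀ i, (B i).det ≠ 0 := by
    intro i h0
    apply Pool.Agent.Y123.GN.PM'_det (n := fun i => 2 * m i) hQ hΩ i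
    show ((Ω i)ᵀ * Pool.Agent.Y119.HY.cm (Pool.Agent.Y119.HY.Jm (2 * m i) (Pool.Agent.Y119.HY.QB (β i))) * Ω i).det = 0
    rw [hPB, det_smul, h0, mul_zero]
  have htp : Pool.Agent.Y123.GN.tpi ≠ 0 := Pool.Agent.Y123.GN.tpi_ne
  have hBs : ∀ i, (B i)ᵀ = -B i := by
    intro i
    have h1 := Pool.Agent.Y123.GN.PM'_skew (n := fun i => 2 * m i) hQ Ω i
    have h2 : Pool.Agent.Y123.GN.PM' (n := fun i => 2 * m i) (fun i => Pool.Agent.Y119.HY.QB (β i)) Ω i =
        Pool.Agent.Y123.GN.tpi ^ w i • B i := hPB i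
    rw [h2, Matrix.transpose_smul, ← smul_neg] at h1
    have h3 := congrArg (fun M => (Pool.Agent.Y123.GN.tpi ^ w i)⁻¹ • M) h1
    simp only [smul_smul, inv_mul_cancel₀ (pow_ne_zero (w i) htp), one_smul] at h3
    exact h3
  have hsp : ∀ i, Pool.Agent.Y123.GN.Spf (B i) := fun i =>
    ⟨(Matrix.isUnit_iff_isUnit_det _).2 (isUnit_iff_ne_zero.2 (hBd i)), hBs i⟩
  have hJK : ∀ i a b, J (β i) a b ∈ K := by
    intro i a b
    rw [J_eq, Pool.Agent.Y119.HY.cm_apply]
    exact SubfieldClass.ratCast_mem K _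
  have hform : ∀ i, periods β Ω s i * J (β i) * (periods β Ω s i)ᵀ = twoPiI ^ w i • B i := by
    intro i
    have h6 := Pool.Agent.Y123.GN.cM_form (n := fun i => 2 * m i) hQ Ω hs i
    rw [J_eq, hW]
    exact h6.trans (hPB i)
  have hTor : ∀ y : (∀ i, Matrix (Fin (2 * m i)) (Fin (2 * m i)) ℂ) × ℂ, y ∈ torsor β w B ↔
      y ∈ Pool.Agent.X120.GS.Tor (n := fun i => 2 * m i) B (fun i => J (β i)) (fun i => (w i : ℤ)) 0 0 := by
    intro y
    constructor
    · rintro ⟨h1, h2⟩
      refine ⟨h1, fun i => ⟨?_, Or.inl (hsp i)⟩⟩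
      rw [h2 i, zpow_natCast]
    · rintro ⟨h1, h2⟩
      refine ⟨h1, fun i => ?_⟩
      rw [(h2 i).1, zpow_natCast]
  have hst : ∀ g : ∀ i, (Matrix (Fin (2 * m i)) (Fin (2 * m i)) ℂ)ˣ, (∀ i, g i ∈ Pool.Agent.Y123.GN.GB (B i)) →
      Pool.Agent.Y123.GN.Rl K δ (Pool.Agent.Y123.GN.EG (n := fun i => 2 * m i) (Matrix.diagonal fun _ : Fin 1 => Pool.Agent.Y123.GN.tpi) (periods β Ω s))
        (Pool.Agent.Y123.GN.EG (n := fun i => 2 * m i) 1 (fun i => (g i : Matrix (Fin (2 * m i)) (Fin (2 * m i)) ℂ)) *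
          Pool.Agent.Y123.GN.EG (n := fun i => 2 * m i) (Matrix.diagonal fun _ : Fin 1 => Pool.Agent.Y123.GN.tpi) (periods β Ω s)) := by
    intro g hg
    rw [hW]
    refine hgood K hKf hKD g fun i => ⟨(hg i).1, ?_⟩
    beta_reduce
    rw [hPB, Matrix.mul_smul, Matrix.smul_mul, (hg i).2]
  have hmain : ∀ F : MvPolynomial ((Σ i, Fin (2 * m i) × Fin (2 * m i)) ⊕ Fin 1) K, F.totalDegree ≤ δ →
      MvPolynomial.aeval (entries (periods β Ω s) fun _ => twoPiI) F = 0 →
        ∀ y ∈ torsor β w B, MvPolynomial.aeval (entries y.1 fun _ => y.2) F = 0 := by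
    intro F hF h0 y hy
    exact Pool.Agent.X120.GS.rel_abs (n := fun i => 2 * m i) hKalg (fun i => (hsp i).1) hBK hJK (fun _ => K.zero_mem)
      (fun i => Or.inl (hsp i)) hst ((hTor _).1 ⟨htp, hform⟩) hF h0 y ((hTor y).1 hy)
  refine ⟨fun F hF => ⟨hmain F hF, fun h => h (periods β Ω s, twoPiI) ⟨htp, hform⟩⟩, ?_⟩
  intro F hF hcl y hy
  have h1 := hcl (periods β Ω s) fun G hG => hG
  have hr : ∀ (X : ∀ i, Matrix (Fin (2 * m i)) (Fin (2 * m i)) ℂ) (μ : ℂ),
      MvPolynomial.aeval (entries X fun _ => μ) (MvPolynomial.rename Sum.inl F : MvPolynomial (_ ⊕ Fin 1) K) =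
        MvPolynomial.aeval (fun v : Σ i, Fin (2 * m i) × Fin (2 * m i) => X v.1 v.2.1 v.2.2) F := by
    intro X μ
    rw [MvPolynomial.aeval_rename]
    rfl
  have h2 := hmain (MvPolynomial.rename Sum.inl F) ((MvPolynomial.totalDegree_rename_le _ _).trans hF) (by rw [hr]; exact h1) y hy
  rw [hr] at h2
  exact h2

/-- **The theorem.** -/
theorem result (k : ℕ) (m : Fin k → ℕ) (hm : ∀ i, 1 ≤ m i) (β : ∀ i, Fin (m i) → ℚ)
    (hβ : ∀ i j, ∀ a : ℤ, β i j ≠ a) (b : Fin k → ℕ) (hb : ∀ i, 2 ≤ b i) :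
    -- number fields of degree at most `D`, relations of degree at most `δ`
    (∀ D δ : ℕ, ∃ C : ℝ, 0 ≤ C ∧
      ∀ Ω : (∀ i, Matrix (Fin (2 * m i)) (Fin (2 * m i)) ℂ), (∀ i, IsUnit (Ω i)) → ∀ N : ℕ, 2 ≤ N →
      (({t : Fin k → ℕ | (∀ i, 1 ≤ t i ∧ t i ≤ N) ∧ ¬ Good D δ β Ω fun i => b i ^ t i}.ncard : ℕ) : ℝ) * N ≤
        C * (N : ℝ) ^ k * Real.log N) ∧
    -- number fields and relations of degree at most `M N`
    (∃ (M : ℕ → ℕ) (ε : ℕ → ℝ), Tendsto M atTop atTop ∧ Tendsto ε atTop (nhds 0) ∧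
      ∀ N : ℕ, 2 ≤ N → ∀ Ω : (∀ i, Matrix (Fin (2 * m i)) (Fin (2 * m i)) ℂ), (∀ i, IsUnit (Ω i)) →
      (({t : Fin k → ℕ | (∀ i, 1 ≤ t i ∧ t i ≤ N) ∧ ¬ Good (M N) (M N) β Ω fun i => b i ^ t i}.ncard : ℕ) : ℝ) ≤
        ε N * (N : ℝ) ^ k) := by
  classical
  have hβ' : ∀ i, ∀ j, ∀ l : ℕ, (l : ℚ) + β i j ≠ 0 ∧ (l : ℚ) + -β i j ≠ 0 := by
    intro i j l
    constructor
    · intro h
      apply hβ i j (-(l : ℤ))
      push_cast
      linear_combination h
    · intro h
      apply hβ i j (l : ℤ)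
      push_cast
      linear_combination -h
  have hQ := fun i => Pool.Agent.Y119.HZ.QD_QB (hm i) (hβ' i)
  have hmain : ∀ D δ : ℕ, ∃ C : ℝ, 0 ≤ C ∧
      ∀ Ω : (∀ i, Matrix (Fin (2 * m i)) (Fin (2 * m i)) ℂ), (∀ i, IsUnit (Ω i)) → ∀ N : ℕ, 2 ≤ N →
      (({t : Fin k → ℕ | (∀ i, 1 ≤ t i ∧ t i ≤ N) ∧ ¬ Good D δ β Ω fun i => b i ^ t i}.ncard : ℕ) : ℝ) * N ≤
        C * (N : ℝ) ^ k * Real.log N := by
    intro D δ
    obtain ⟨C, hC, hcount⟩ := Pool.Agent.X120.GS.hyp_relS (Fin 1) k D δ (fun i => 2 * m i)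
      (fun i => Pool.Agent.Y119.HY.QB (β i)) hQ (fun i μ hμ => by
        exact Pool.Agent.X120.GS.QB_rat (β i) hμ) (fun i a b => Pool.Agent.Y119.HY.sdc_hps (hβ' i) (hQ i) a b) hb
    refine ⟨C, hC, ?_⟩
    intro Ω hΩ N hN
    set S := {t : Fin k → ℕ | (∀ i, 1 ≤ t i ∧ t i ≤ N) ∧ ¬ Good D δ β Ω fun i => b i ^ t i} with hS
    have hfin : S.Finite := by
      refine (Set.finite_Iic (fun _ : Fin k => N)).subset ?_
      intro t ht i
      exact (ht.1 i).2
    rw [Set.ncard_eq_toFinset_card S hfin]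
    refine hcount Ω hΩ (Matrix.diagonal fun _ : Fin 1 => twoPiI) N hN hfin.toFinset fun t ht => ?_
    have ht' := hfin.mem_toFinset.1 ht
    refine ⟨ht'.1, fun hgood => ht'.2 ?_⟩
    have hs : ∀ i, 2 ≤ b i ^ t i := fun i => (hb i).trans (Nat.le_self_pow (by have := (ht'.1 i).1; omega) _)
    exact good_of hm hβ' hΩ hs hgood
  refine ⟨hmain, ?_⟩
  choose C hC hcount using hmain
  obtain ⟨D, hD, hδ⟩ := Pool.Agent.Y123.GN.diag_seq (fun D N => C D D * (Real.log N / N)) (by
      intro D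
      have h1 : Tendsto (fun N : ℕ => Real.log N / N) atTop (nhds 0) :=
        (Real.isLittleO_log_id_atTop.tendsto_div_nhds_zero).comp tendsto_natCast_atTop_atTop
      have h5 := h1.const_mul (C D D)
      rw [mul_zero] at h5
      exact h5)
  refine ⟨D, _, hD, hδ, ?_⟩
  intro N hN Ω hΩ
  have h1 := hcount (D N) (D N) Ω hΩ N hN
  have hN0 : (0 : ℝ) < N := by
    have : 0 < N := by omega
    exact_mod_cast this
  rw [← le_div_iff₀ hN0] at h1
  refine h1.trans (le_of_eq ?_)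
  ring

end Pool.Agent.Results.MP_290158_ag.HypergeometricFibresAtPowers
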