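import Pool.Agent.Results.MP_290158_ag.ApproximationsOfAllNumbers
import Pool.Agent.X174.GlTup

/-!
# Degree-bounded period relations for products of `n` families of elliptic curves, at ALL simultaneous approximations

Let `E_j → S_j`, `j ≤ n`, be any families of elliptic curves over curves, in local coordinates: lattices depending
analytically on `z ∈ U_j`, with algebraic invariants and nonconstant `j`-invariant. We consider the family over
`S_1 × … × S_n` of the products of powers of the `E_j`, or more generally any motives constructed from the `E_j` by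
multilinear algebra: their periods are polynomials `R_k` with integral coefficients in the `4 n` entries of the period
matrices `P_j(z_j)`. The Legendre relations `det P_j = 2 π i n_j` show that the `ℚ̄`-Zariski closure of the graph of
`(P_1, …, P_n)` is contained in, hence (for the transcendence of `π` and the independence of the functions) equal to the set of
the `(z, M_1, …, M_n)` for which the `det M_j / det P_j(z_j)` are equal, a torsor under the subgroup of the
`(g_1, …, g_n) ∈ GL₂^n` with equal determinants.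

We prove: for every `ω > 0` and `m` there is ONE set `E ⊂ ℂ^n` of Hausdorff dimension at most `2 m (n - 1) / ω` such that for
all `x ∈ ∏ U_j` outside `E`, all number fields `F ⊂ ℂ` of degree at most `m`, all `R`, `δ`, `A` there is `T₁` such that for all
`T ≥ T₁` and ALL simultaneous approximations `z ∈ F^n` of `x`, of height at most `T`, with `|z_j - x_j| ≤ T ^ (-ω)` for all
`j`, every relation of degree at most `δ` over `F`, with integral coefficients with conjugates at most `T ^ A`, between the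
`R_k (P_1(z_1), …, P_n(z_n))` vanishes at `R (M_1, …, M_n)` for all `M` in this torsor. For `ω > 2 m (n - 1) / n` almost all
real `x` are outside `E`. The case `n = 1` is the result `ApproximationsOfAllNumbers`. For `n ≥ 2` some exceptions are
unavoidable: they lie in the Hodge locus if `E_1 = E_2`, `x_1 = x_2`, `z_1 = z_2`.
-/

set_option autoImplicit false

open MeasureTheory NumberField
open Pool.Agent

namespace Pool.Agent.Results.MP_290158_ag.SimultaneousApproximations

open Pool.Agent.X39.Near (Size)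
open ApproximationsOfAllNumbers (Family periods det_const zeta_eq)

/-- the determinant of a `2 × 2` matrix given by its four entries -/
def det (M : Fin 4 → ℂ) : ℂ := M 0 * M 3 - M 1 * M 2

/-- Every relation of total degree at most `δ` between the numbers `R_k (P_1, …, P_n)` with coefficients in the integers of
`F`, all of whose conjugates are at most `H`, holds for the `R_k (M_1, …, M_n)`, for all `2 × 2` matrices `M_j` with
determinants `a det P_j`, with any common factor `a ≠ 0`. -/
def NoRelation {F : Type} [Field F] [NumberField F] (ι : F →+* ℂ) {n k : ℕ} (R : Fin k → MvPolynomial (Fin n × Fin 4) ℤ)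
    (P : Fin n → Fin 4 → ℂ) (δ : ℕ) (H : ℝ) : Prop :=
  ∀ Q : MvPolynomial (Fin k) (𝓞 F), Q.totalDegree ≤ δ →
    (∀ s (φ : F →+* ℂ), ‖φ ((Q.coeff s : 𝓞 F) : F)‖ ≤ H) →
    MvPolynomial.eval₂ (ι.comp (algebraMap (𝓞 F) F)) (fun i => MvPolynomial.aeval (fun y => P y.1 y.2) (R i)) Q = 0 →
    ∀ (M : Fin n → Fin 4 → ℂ) (a : ℂ), a ≠ 0 → (∀ j, det (M j) = a * det (P j)) →
      MvPolynomial.eval₂ (ι.comp (algebraMap (𝓞 F) F)) (fun i => MvPolynomial.aeval (fun y => M y.1 y.2) (R i)) Q = 0

/-- **Theorem.** Let `n ≥ 1`, `m` be natural numbers, `Λ_j` a family on `U_j` for each `j < n`, and `ω > 0`. There is a set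
`E ⊂ ℂ^n` of Hausdorff dimension at most `2 m (n - 1) / ω`, which contains almost no real point if `2 m (n - 1) < n ω`, such
that for all `x` outside `E` with `x_j ∈ U_j`, all number fields `F` of degree at most `m` with an embedding `ι` in `ℂ`, all
polynomials `R_1, …, R_k` with integral coefficients in the entries of `n` matrices and all `δ`, `A` there is `T₁` such that
for all `T ≥ T₁` and all `z ∈ F^n`, quotients of integers with conjugates at most `T`, with `|ι z_j - x_j| ≤ T ^ (-ω)` for all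
`j`, every relation of degree at most `δ` with integral coefficients in `F` with conjugates at most `T ^ A` between the numbers
`R_i (P_1(z_1), …, P_n(z_n))` holds for `R_i (M_1, …, M_n)` for all matrices `M_j` with `det M_j = a det P_j(z_j)` with a
common factor `a ≠ 0`. -/
theorem result {n : ℕ} (hn : 1 ≤ n) (m : ℕ) (U : Fin n → Set ℂ) (Λ : Fin n → ℂ → PeriodPair)
    (hΛ : ∀ j, Family (U j) (Λ j)) (ω : ℝ) (hω : 0 < ω) :
    ∃ E : Set (Fin n → ℂ), dimH E ≤ ENNReal.ofReal (2 * m * ((n : ℝ) - 1) / ω) ∧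
      (2 * m * ((n : ℝ) - 1) < n * ω → ∀ᵐ x : Fin n → ℝ, (fun j => (x j : ℂ)) ∉ E) ∧
      ∀ x : Fin n → ℂ, (∀ j, x j ∈ U j) → x ∉ E → ∀ (F : Type) [Field F] [NumberField F],
        Module.finrank ℚ F ≤ m → ∀ (ι : F →+* ℂ) (k : ℕ) (R : Fin k → MvPolynomial (Fin n × Fin 4) ℤ) (δ A : ℕ),
          ∃ T₁ : ℝ, ∀ T : ℝ, T₁ ≤ T → ∀ z : Fin n → F, (∀ j, Size F T (z j)) → (∀ j, ‖ι (z j) - x j‖ ≤ T ^ (-ω)) →
            NoRelation ι R (fun j => periods (Λ j (ι (z j)))) δ (T ^ A) := by
  classical
  by_cases hne : ∀ j, (U j).Nonempty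
  swap
  · push Not at hne
    obtain ⟨j, hj⟩ := hne
    refine ⟨∅, by simp, fun _ => by simp, fun x hx => ?_⟩
    have := hx j
    rw [hj] at this
    exact absurd this (Set.notMem_empty _)
  have hF : ∀ j, Y776.Fam.Fm (r := 0) (s := 0) (q := 0) (U j) (Λ j) (fun k => k.elim0) (fun k => k.elim0)
      (fun k => k.elim0) (fun k => k.elim0) := fun j =>
    { isOpen := (hΛ j).isOpen, conn := (hΛ j).isPreconnected, an₁ := (hΛ j).analytic₁, an₂ := (hΛ j).analytic₂
      ni := (hΛ j).nonconstant, ag2 := (hΛ j).algebraic₂, ag3 := (hΛ j).algebraic₃, ua := fun k => k.elim0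
      un := fun k => k.elim0, uw := fun k => k.elim0, ui := fun _ _ => Subsingleton.elim _ _, la := fun k => k.elim0
      le := fun k => k.elim0, li := fun _ _ _ => Subsingleton.elim _ _
      Sa := fun k => k.elim0, Se := fun k => k.elim0, Ni := fun _ _ => Subsingleton.elim _ _ }
  have hη : ∀ (j : Fin n) (i : Fin 4), AnalyticOnNhd ℂ (fun z => periods (Λ j z) i) (U j) := by
    intro j i
    have hL := (hF j).toLF
    fin_cases i
    · exact (hΛ j).analytic₁
    · exact (hΛ j).analytic₂
    · have h1 := hL.an_zeta (p := fun z => (Λ j z).ω₁ / 2) (fun z hz => ((hΛ j).analytic₁ z hz).div_const)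
        (fun z _ => TH813.Ell.half₁ (Λ j z))
      exact fun z hz => analyticAt_const.mul (h1 z hz)
    · have h1 := hL.an_zeta (p := fun z => (Λ j z).ω₂ / 2) (fun z hz => ((hΛ j).analytic₂ z hz).div_const)
        (fun z _ => TH813.Ell.half₂ (Λ j z))
      exact fun z hz => analyticAt_const.mul (h1 z hz)
  have hN : ∀ j, ∃ N : ℤ, N ≠ 0 ∧ ∀ z ∈ U j, periods (Λ j z) 0 * periods (Λ j z) 3 - periods (Λ j z) 1 * periods (Λ j z) 2 =
      N * (2 * Real.pi * Complex.I) := fun j => det_const (hΛ j) (hne j) (hη j)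
  choose N hN0 hdet using hN
  set c : ℂ := 2 * Real.pi * Complex.I with hc
  have hc0 : c ≠ 0 := Complex.two_pi_I_ne_zero
  have hct : Transcendental ℚ c := by
    intro h
    have hI : IsAlgebraic ℚ Complex.I := Complex.isIntegral_rat_I.isAlgebraic
    have h1 : IsAlgebraic ℚ ((2 : ℂ) * Complex.I)⁻¹ := by
      refine IsAlgebraic.inv (IsAlgebraic.mul ?_ hI)
      exact_mod_cast isAlgebraic_intCast (R := ℚ) (A := ℂ) 2
    have hne : ((2 : ℂ) * Complex.I) ≠ 0 := by simp [Complex.I_ne_zero]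
    have h2 : (Real.pi : ℂ) = c * ((2 : ℂ) * Complex.I)⁻¹ := by
      rw [eq_mul_inv_iff_mul_eq₀ hne, hc]
      ring
    apply H340R2.LW.transcendental_pi_complex
    rw [h2]
    exact h.mul h1
  let f : Fin n → Fin 3 → ℂ → ℂ := fun j i => Y776.Fam.yfam (r := 0) (s := 0) (q := 0) (Λ j) (fun k => k.elim0)
      (fun k => k.elim0) (fun k => k.elim0) (Sum.inl i)
  have hf0 : ∀ j z, f j 0 z = periods (Λ j z) 0 := fun j z => rfl
  have hf1 : ∀ j z, f j 1 z = periods (Λ j z) 1 := fun j z => rfl
  have hf2 : ∀ j z, f j 2 z = periods (Λ j z) 2 := by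
    intro j z
    show H667R3.eta (Λ j z) (Λ j z).ω₁ = 2 * ApproximationsOfAllNumbers.ζ (Λ j z) ((Λ j z).ω₁ / 2)
    rw [TH813.Ell.eta_half (Λ j z).ω₁_mem_lattice (TH813.Ell.half₁ (Λ j z)), zeta_eq]
  obtain ⟨E, e1, e2, e3⟩ := Pool.Agent.X174.NearTup.masterTup (q := 0) hn m U (fun j => (hΛ j).isOpen) f
    (fun j i t ht => Y776.Fam.yfam_an (hF j) (Sum.inl i) t ht)
    (fun j t ht => Y776.Cv.LocInd.comp_inj (Y776.Fam.fam_locInd (hF j) ht) Sum.inl_injective)
    (fun _ k => k.elim0) (fun _ => 1) (by simp) (fun _ : Fin 1 => c) hω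
  refine ⟨E, e1, e2, fun x hx hxE F _ _ hFm ι k R δ A => ?_⟩
  set ρ : ℕ := ∑ i, (R i).totalDegree with hρ
  set L : ℝ := 1 + ∑ i, Pool.Agent.X255.NP.l1 ((R i).map (Int.castRingHom ℂ)) with hL
  have hRρ : ∀ i, (R i).totalDegree ≤ ρ := fun i =>
    Finset.single_le_sum (f := fun i => (R i).totalDegree) (fun _ _ => Nat.zero_le _) (Finset.mem_univ i)
  have hL1 : 1 ≤ L := by
    have := Finset.sum_nonneg (s := (Finset.univ : Finset (Fin k))) fun i _ =>
      Pool.Agent.X255.NP.l1_nonneg ((R i).map (Int.castRingHom ℂ))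
    linarith
  have hRL : ∀ i, Pool.Agent.X255.NP.l1 ((R i).map (Int.castRingHom ℂ)) ≤ L := by
    intro i
    have := Finset.single_le_sum (f := fun i => Pool.Agent.X255.NP.l1 ((R i).map (Int.castRingHom ℂ)))
      (fun i _ => Pool.Agent.X255.NP.l1_nonneg _) (Finset.mem_univ i)
    linarith
  set D : ℕ := δ * ρ with hD
  set K : ℝ := ((D : ℝ) + 1) ^ (n * 4) * (((δ : ℝ) + 1) ^ k * L ^ δ * ∏ j, (|(N j : ℝ)| + 1) ^ D) with hK
  obtain ⟨B, T₂, h2⟩ := e3 x hx hxE F hFm ι (n * (6 * D)) (A + 1)
  have hr : ∀ j, ∃ T₃ : ℝ, ∀ T : ℝ, T₃ ≤ T → ∀ y : ℂ, ‖y - x j‖ ≤ T ^ (-ω) → y ∈ U j := by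
    intro j
    obtain ⟨r, hr, hrU⟩ := Metric.isOpen_iff.1 (hΛ j).isOpen (x j) (hx j)
    have h3 := (tendsto_rpow_neg_atTop hω).eventually (gt_mem_nhds hr)
    obtain ⟨T₃, h4⟩ := Filter.eventually_atTop.1 h3
    exact ⟨T₃, fun T hT y hy => hrU (by rw [Metric.mem_ball, dist_eq_norm]; exact hy.trans_lt (h4 T hT))⟩
  choose T₃ hT₃ using hr
  refine ⟨max (max T₂ (max 1 K)) (∑ j, |T₃ j|), fun T hT z hz hzx Q hQ hH h0 M a ha hM => ?_⟩
  have hT2 : T₂ ≤ T := (le_max_left _ _).trans ((le_max_left _ _).trans hT)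
  have hT1 : 1 ≤ T := (le_max_left _ _).trans ((le_max_right _ _).trans ((le_max_left _ _).trans hT))
  have hTK : K ≤ T := (le_max_right _ _).trans ((le_max_right _ _).trans ((le_max_left _ _).trans hT))
  have hT0 : 0 < T := by linarith
  have hzU : ∀ j, ι (z j) ∈ U j := by
    intro j
    refine hT₃ j T ?_ _ (hzx j)
    have h5 : |T₃ j| ≤ ∑ j, |T₃ j| :=
      Finset.single_le_sum (f := fun j => |T₃ j|) (fun _ _ => abs_nonneg _) (Finset.mem_univ j)
    exact (le_abs_self _).trans (h5.trans ((le_max_right _ _).trans hT))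
  rw [← Pool.Agent.X174.GlTup.comp_eval R Q]
  refine Pool.Agent.X174.GlTup.glT f (fun _ k => k.elim0) (fun _ => 1) hct ι
    (h2 T hT2 z hz hzx) hT0 N (Q := Pool.Agent.X174.GlTup.comp R Q) (Pool.Agent.X174.GlTup.comp_deg hRρ hQ)
    (R := ((δ : ℝ) + 1) ^ k * (T ^ A * L ^ δ))
    (Pool.Agent.X174.GlTup.comp_coeff hL1 hRL hQ hH (by positivity)) (by positivity) ?_
    (fun j => periods (Λ j (ι (z j)))) (fun j => (hf0 j _).symm) (fun j => (hf1 j _).symm) (fun j => (hf2 j _).symm)
    (fun j => hdet j _ (hzU j)) ?_ M (a * c) (fun j => ?_) (fun j => ?_)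
  · have h6 : ((A + 1 : ℕ) : ℝ) = ((A + 1 : ℕ) : ℝ) := rfl
    rw [Real.rpow_natCast]
    calc ((D : ℝ) + 1) ^ (n * 4) * (((δ : ℝ) + 1) ^ k * (T ^ A * L ^ δ) * ∏ j, (|(N j : ℝ)| + 1) ^ D) = K * T ^ A := by
          rw [hK]
          ring
      _ ≤ T * T ^ A := mul_le_mul_of_nonneg_right hTK (by positivity)
      _ = T ^ (A + 1) := by rw [pow_succ]; ring
  · rw [Pool.Agent.X174.GlTup.comp_eval]
    exact h0
  · have h7 := hM j
    unfold det at h7
    rw [h7, hdet j _ (hzU j)]
    ring
  · have h7 := hM j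
    unfold det at h7
    rw [h7, hdet j _ (hzU j)]
    exact mul_ne_zero ha (mul_ne_zero (by exact_mod_cast hN0 j) hc0)

end Pool.Agent.Results.MP_290158_ag.SimultaneousApproximations
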